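import Pool.Agent.U220.RD.Stm2

/-! Project RD, package FPOL: the equation of the closure of the critical set is an irreducible
form of degree `2 ^ rk * beta / 2`. -/

namespace Pool.Agent.U324.RD

open MvPolynomial Pool.Agent.U220.RD

/-! ### polynomials in one distinguished variable -/

section psi

variable {σ I : Type} (v : I → σ) (e : σ)

/-- a polynomial in `X e` with coefficients in the polynomials of the other variables -/
noncomputable def psi : Polynomial (MvPolynomial I ℂ) →+* MvPolynomial σ ℂ :=
  Polynomial.eval₂RingHom (rename v).toRingHom (X e)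

theorem psi_C (p : MvPolynomial I ℂ) : psi v e (Polynomial.C p) = rename v p := by
  simp [psi]

theorem psi_X : psi v e Polynomial.X = X e := by
  simp [psi]

theorem psi_surj (h : ∀ j, j = e ∨ ∃ i, v i = j) : Function.Surjective (psi v e) := by
  intro p
  induction p using MvPolynomial.induction_on with
  | C c => exact ⟨Polynomial.C (C c), by rw [psi_C, rename_C]⟩
  | add p q hp hq =>
    obtain ⟨p', rfl⟩ := hp
    obtain ⟨q', rfl⟩ := hq
    exact ⟨p' + q', by rw [map_add]⟩
  | mul_X p j hp =>
    obtain ⟨p', rfl⟩ := hp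
    rcases h j with rfl | ⟨i, rfl⟩
    · exact ⟨p' * Polynomial.X, by rw [map_mul, psi_X]⟩
    · exact ⟨p' * Polynomial.C (X i), by rw [map_mul, psi_C, rename_X]⟩

theorem aeval_psi {κ : Type} [Field κ] [Algebra ℂ κ] (u : σ → κ) (p : Polynomial (MvPolynomial I ℂ)) :
    aeval u (psi v e p) =
      Polynomial.eval₂ (aeval (fun i => u (v i)) : MvPolynomial I ℂ →ₐ[ℂ] κ).toRingHom (u e) p := by
  induction p using Polynomial.induction_on' with
  | add p q hp hq => rw [map_add, map_add, hp, hq, Polynomial.eval₂_add]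
  | monomial n a =>
    rw [← Polynomial.C_mul_X_pow_eq_monomial, map_mul, map_pow, psi_C, psi_X, map_mul, map_pow,
      aeval_X, aeval_rename, Polynomial.eval₂_mul, Polynomial.eval₂_C, Polynomial.eval₂_pow,
      Polynomial.eval₂_X]
    rfl

theorem eval_psi_single [DecidableEq σ] (hv : ∀ i, v i ≠ e) (c : ℂ)
    (p : Polynomial (MvPolynomial I ℂ)) :
    eval (Pi.single e c) (psi v e p) = (p.map constantCoeff).eval c := by
  induction p using Polynomial.induction_on' with
  | add p q hp hq => rw [map_add, map_add, hp, hq, Polynomial.map_add, Polynomial.eval_add]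
  | monomial n a =>
    rw [← Polynomial.C_mul_X_pow_eq_monomial, map_mul, map_pow, psi_C, psi_X, map_mul, map_pow,
      eval_X, eval_rename, Polynomial.map_mul, Polynomial.map_pow, Polynomial.map_C,
      Polynomial.map_X, Polynomial.eval_mul, Polynomial.eval_C, Polynomial.eval_pow,
      Polynomial.eval_X, Pi.single_eq_same]
    congr 1
    have : (Pi.single e c : σ → ℂ) ∘ v = 0 := by
      funext i
      simp [Pi.single_eq_of_ne (hv i)]
    rw [this]
    simp [constantCoeff_eq]

end psi

/-! ### evaluation of forms -/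

theorem eval_smul_hom {σ : Type} {F : MvPolynomial σ ℂ} {k : ℕ} (hF : F.IsHomogeneous k)
    (c : ℂ) (x : σ → ℂ) : eval (c • x) F = c ^ k * eval x F := by
  rw [eval_eq, eval_eq, Finset.mul_sum]
  refine Finset.sum_congr rfl fun d hd => ?_
  have h1 : d.degree = k := by
    rw [Finsupp.degree_eq_weight_one]
    exact hF (mem_support_iff.1 hd)
  have h2 : ∏ i ∈ d.support, (c • x) i ^ d i = c ^ k * ∏ i ∈ d.support, x i ^ d i := by
    rw [← h1, Finsupp.degree_apply, ← Finset.prod_pow_eq_pow_sum, ← Finset.prod_mul_distrib]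
    refine Finset.prod_congr rfl fun i _ => ?_
    rw [Pi.smul_apply, smul_eq_mul, mul_pow]
  rw [h2]
  ring

/-- a polynomial which vanishes on a cone: all components vanish on the cone -/
theorem comp_vanish {σ : Type} (F : MvPolynomial σ ℂ) (x : σ → ℂ)
    (h : ∀ c : ℂ, eval (c • x) F = 0) (k : ℕ) : eval x (homogeneousComponent k F) = 0 := by
  set P : Polynomial ℂ := ∑ i ∈ Finset.range (F.totalDegree + 1),
    Polynomial.C (eval x (homogeneousComponent i F)) * Polynomial.X ^ i with hP
  have h1 : ∀ c : ℂ, P.eval c = 0 := by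
    intro c
    rw [← h c]
    conv_rhs => rw [← sum_homogeneousComponent F]
    rw [hP, Polynomial.eval_finsetSum, map_sum]
    refine Finset.sum_congr rfl fun i _ => ?_
    rw [eval_smul_hom (homogeneousComponent_isHomogeneous i F), Polynomial.eval_mul,
      Polynomial.eval_C, Polynomial.eval_pow, Polynomial.eval_X, mul_comm]
  have h2 : P = 0 := Polynomial.funext fun c => by rw [h1 c, Polynomial.eval_zero]
  by_cases hk : k < F.totalDegree + 1
  · have h3 : P.coeff k = eval x (homogeneousComponent k F) := by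
      rw [hP, Polynomial.finsetSum_coeff]
      simp only [Polynomial.coeff_C_mul_X_pow]
      rw [Finset.sum_eq_single k]
      · simp
      · intro b _ hb
        simp [hb.symm]
      · intro hk'
        exact absurd (Finset.mem_range.2 hk) hk'
    rw [← h3, h2, Polynomial.coeff_zero]
  · rw [homogeneousComponent_eq_zero _ _ (by omega), map_zero]

/-! ### the equation -/

open IntermediateField.algebraAdjoinAdjoin in
theorem exists_eq {σ I κ : Type} [Field κ] [Algebra ℂ κ] (v : I → σ) (e : σ) (u : σ → κ)
    (h : ∀ j, j = e ∨ ∃ i, v i = j) (hv : ∀ i, v i ≠ e)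
    (hai : AlgebraicIndependent ℂ (fun i => u (v i)))
    (hint : IsIntegral (Algebra.adjoin ℂ (Set.range (fun i => u (v i)))) (u e))
    (htop : IntermediateField.adjoin ℂ (Set.range u) = ⊤) :
    ∃ q : Polynomial (MvPolynomial I ℂ), q.Monic ∧
      q.natDegree =
        Module.finrank (IntermediateField.adjoin ℂ (Set.range (fun i => u (v i)))) κ ∧
      Prime (psi v e q) ∧ ∀ G : MvPolynomial σ ℂ, aeval u G = 0 ↔ psi v e q ∣ G := by
  classical
  let B := Algebra.adjoin ℂ (Set.range (fun i => u (v i)))
  let K := IntermediateField.adjoin ℂ (Set.range (fun i => u (v i)))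
  let φ : MvPolynomial I ℂ ≃ₐ[ℂ] B := hai.aevalEquiv
  have hφ : ∀ p, ((φ p : B) : κ) = aeval (fun i => u (v i)) p :=
    fun p => hai.algebraMap_aevalEquiv p
  have : IsIntegrallyClosed B := IsIntegrallyClosed.of_equiv φ.toRingEquiv
  let q0 : Polynomial B := minpoly B (u e)
  have hq0m : q0.Monic := minpoly.monic hint
  let q : Polynomial (MvPolynomial I ℂ) := q0.map (φ.symm.toRingEquiv : B →+* MvPolynomial I ℂ)
  have hqm : q.Monic := hq0m.map _
  have hdeg : q.natDegree = q0.natDegree := hq0m.natDegree_map _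
  have hmK : minpoly K (u e) = q0.map (algebraMap B K) :=
    minpoly.isIntegrallyClosed_eq_field_fractions' K hint
  have hiK : IsIntegral K (u e) := hint.tower_top
  have hKtop : IntermediateField.adjoin K {u e} = ⊤ := by
    rw [← IntermediateField.restrictScalars_eq_top_iff (K := ℂ),
      IntermediateField.adjoin_adjoin_left, ← htop]
    congr 1
    ext x
    constructor
    · rintro (⟨i, rfl⟩ | hx)
      · exact ⟨v i, rfl⟩
      · exact ⟨e, hx.symm⟩
    · rintro ⟨j, rfl⟩
      rcases h j with rfl | ⟨i, rfl⟩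
      · exact Or.inr rfl
      · exact Or.inl ⟨i, rfl⟩
  have hfin : q.natDegree = Module.finrank K κ := by
    rw [hdeg, ← IntermediateField.finrank_top' (F := K) (E := κ), ← hKtop,
      IntermediateField.adjoin.finrank hiK, hmK, hq0m.natDegree_map]
  have hker : ∀ p : Polynomial (MvPolynomial I ℂ), aeval u (psi v e p) = 0 ↔ q ∣ p := by
    intro p
    have h1 : aeval u (psi v e p) =
        Polynomial.aeval (u e) (p.map (φ.toRingEquiv : MvPolynomial I ℂ →+* B)) := by
      rw [aeval_psi, Polynomial.aeval_def, Polynomial.eval₂_map]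
      congr 1
    rw [h1, minpoly.isIntegrallyClosed_dvd_iff hint]
    constructor
    · intro h2
      have h3 := Polynomial.map_dvd (φ.symm.toRingEquiv : B →+* MvPolynomial I ℂ) h2
      rw [Polynomial.map_map] at h3
      have h4 : (φ.symm.toRingEquiv : B →+* MvPolynomial I ℂ).comp
          (φ.toRingEquiv : MvPolynomial I ℂ →+* B) = RingHom.id _ := by
        ext x <;> simp
      rwa [h4, Polynomial.map_id] at h3
    · intro h2
      have h3 := Polynomial.map_dvd (φ.toRingEquiv : MvPolynomial I ℂ →+* B) h2
      rw [Polynomial.map_map] at h3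
      have h4 : (φ.toRingEquiv : MvPolynomial I ℂ →+* B).comp
          (φ.symm.toRingEquiv : B →+* MvPolynomial I ℂ) = RingHom.id _ := by
        ext x
        simp
      rwa [h4, Polynomial.map_id] at h3
  have hF0 : psi v e q ≠ 0 := by
    intro h0
    have h1 : q.map (constantCoeff : MvPolynomial I ℂ →+* ℂ) = 0 :=
      Polynomial.funext fun c => by
        rw [← eval_psi_single v e hv c q, h0, map_zero, Polynomial.eval_zero]
    exact (hqm.map (constantCoeff : MvPolynomial I ℂ →+* ℂ)).ne_zero h1
  have hdvd : ∀ G : MvPolynomial σ ℂ, aeval u G = 0 ↔ psi v e q ∣ G := by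
    intro G
    constructor
    · intro hG
      obtain ⟨p, rfl⟩ := psi_surj v e h G
      exact map_dvd _ ((hker p).1 hG)
    · rintro ⟨H, rfl⟩
      rw [map_mul, (hker q).2 dvd_rfl, zero_mul]
  refine ⟨q, hqm, hfin, ?_, hdvd⟩
  have hsp : Ideal.span {psi v e q} = RingHom.ker (aeval u : MvPolynomial σ ℂ →ₐ[ℂ] κ) := by
    ext G
    rw [Ideal.mem_span_singleton, RingHom.mem_ker, hdvd G]
  rw [← Ideal.span_singleton_prime hF0, hsp]
  exact RingHom.ker_isPrime _

theorem t_FPOL (hINT : S_INT) (hBIR : S_BIR) (hIND : S_IND) (hLINK : S_LINK) : S_FPOL := by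
  classical
  intro N m a hsp hne e hb
  obtain ⟨κ, _, _, t, z, hgen, hlink⟩ := hLINK N m a hsp hne e
  have hI := hIND (Fin N) (Fin m → ℂ) κ a Finset.univ e t z hgen
  have hai : AlgebraicIndependent ℂ
      (fun i : {i // i ∈ (Finset.univ : Finset (Fin N)).erase e} => uu a t z i) := by
    by_contra hcon
    have := hI.2 hcon
    omega
  have hcount := hI.1 hai
  have hint := hINT (Fin N) (Fin m → ℂ) κ a Finset.univ e t z hgen.mem hgen.te hgen.rel
  have htop := hBIR (Fin N) (Fin m → ℂ) κ a Finset.univ e t z hgen hai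
  have htop' : IntermediateField.adjoin ℂ (Set.range (fun i => uu a t z i)) = ⊤ := by
    rw [← htop]
    congr 1
    ext x
    constructor
    · rintro ⟨i, rfl⟩
      exact ⟨⟨i, Finset.mem_univ i⟩, rfl⟩
    · rintro ⟨i, rfl⟩
      exact ⟨i, rfl⟩
  obtain ⟨q, hqm, hqd, hprime, hdvd⟩ := exists_eq
    (v := fun i : {i // i ∈ (Finset.univ : Finset (Fin N)).erase e} => (i : Fin N)) (e := e)
    (u := fun i => uu a t z i)
    (fun j => by
      by_cases hj : j = e
      · exact Or.inl hj
      · exact Or.inr ⟨⟨j, Finset.mem_erase.2 ⟨hj, Finset.mem_univ j⟩⟩, rfl⟩)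
    (fun i => (Finset.mem_erase.1 i.2).1) hai hint htop'
  set F : MvPolynomial (Fin N) ℂ := psi
    (fun i : {i // i ∈ (Finset.univ : Finset (Fin N)).erase e} => (i : Fin N)) e q with hF
  have hF0 : F ≠ 0 := hprime.ne_zero
  have hvan : ∀ G : MvPolynomial (Fin N) ℂ, (∀ u ∈ critical a, eval u G = 0) ↔ F ∣ G :=
    fun G => (hlink G).trans (hdvd G)
  have hcone : ∀ u ∈ critical a, ∀ c : ℂ, c • u ∈ critical a := by
    rintro u ⟨s, hs, hu⟩ c
    refine ⟨s, hs, fun j => ?_⟩
    have : ∑ i, (c • u) i * a i j / form (a i) s ^ 2 =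
        c * ∑ i, u i * a i j / form (a i) s ^ 2 := by
      rw [Finset.mul_sum]
      refine Finset.sum_congr rfl fun i _ => ?_
      rw [Pi.smul_apply, smul_eq_mul]
      ring
    rw [this, hu j, mul_zero]
  have hcomp : ∀ k, F ∣ homogeneousComponent k F := by
    intro k
    rw [← hvan]
    intro u hu
    refine comp_vanish F u (fun c => ?_) k
    exact (hvan F).2 dvd_rfl _ (hcone u hu c)
  have hhomT : homogeneousComponent F.totalDegree F = F := by
    conv_rhs => rw [← sum_homogeneousComponent F]
    rw [Finset.sum_eq_single F.totalDegree]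
    · intro k hk hne'
      by_contra h0
      obtain ⟨H, hH⟩ := hcomp k
      have hH0 : H ≠ 0 := by
        rintro rfl
        exact h0 (by rw [hH, mul_zero])
      have h1 : (homogeneousComponent k F).totalDegree = k :=
        (homogeneousComponent_isHomogeneous k F).totalDegree h0
      rw [hH, totalDegree_mul_of_isDomain hF0 hH0] at h1
      have := Finset.mem_range.1 hk
      omega
    · intro hk
      exact absurd (Finset.mem_range.2 (Nat.lt_succ_self _)) hk
  have hhom : F.IsHomogeneous F.totalDegree := by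
    have := homogeneousComponent_isHomogeneous F.totalDegree F
    rwa [hhomT] at this
  have hTD : F.totalDegree = q.natDegree := by
    have h1 : ∀ c : ℂ, (q.map (constantCoeff :
        MvPolynomial {i // i ∈ (Finset.univ : Finset (Fin N)).erase e} ℂ →+* ℂ)).eval c =
        (Polynomial.C (eval (Pi.single e 1) F) * Polynomial.X ^ F.totalDegree).eval c := by
      intro c
      rw [← eval_psi_single (fun i : {i // i ∈ (Finset.univ : Finset (Fin N)).erase e} =>
        (i : Fin N)) e (fun i => (Finset.mem_erase.1 i.2).1) c q, ← hF]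
      have h2 : (Pi.single e c : Fin N → ℂ) = c • Pi.single e 1 := by
        rw [← Pi.single_smul, smul_eq_mul, mul_one]
      rw [h2, eval_smul_hom hhom, Polynomial.eval_mul, Polynomial.eval_C, Polynomial.eval_pow,
        Polynomial.eval_X, mul_comm]
    have h3 := Polynomial.funext h1
    have h4 : (q.map (constantCoeff :
        MvPolynomial {i // i ∈ (Finset.univ : Finset (Fin N)).erase e} ℂ →+* ℂ)).Monic :=
      hqm.map _
    have h5 : eval (Pi.single e 1) F ≠ 0 := by
      intro h6
      rw [h6, map_zero, zero_mul] at h3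
      exact h4.ne_zero h3
    have h7 := hqm.natDegree_map (constantCoeff :
        MvPolynomial {i // i ∈ (Finset.univ : Finset (Fin N)).erase e} ℂ →+* ℂ)
    rw [h3, Polynomial.natDegree_C_mul_X_pow _ _ h5] at h7
    exact h7
  refine ⟨F, q.natDegree, hprime.irreducible, hTD ▸ hhom, ?_, ?_⟩
  · rw [hqd]
    exact hcount
  · ext y
    constructor
    · rintro ⟨hy0, hy⟩
      exact ⟨hy0, hy F _ hhom ((hvan F).2 dvd_rfl)⟩
    · rintro ⟨hy0, hy⟩
      refine ⟨hy0, fun G k _ hG => ?_⟩
      obtain ⟨H, rfl⟩ := (hvan G).1 hG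
      have hy' : eval y F = 0 := hy
      rw [map_mul, hy', zero_mul]

end Pool.Agent.U324.RD
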